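import Mathlib
import Pool.Agent.CPT.StmtsC
import Pool.Agent.Helper44_BSH.CIR

set_option autoImplicit false

/-! Squad CPT (MP_b2b50d_lc), row CHG (helper42): circuits are cheap (after row CIR of BSH). -/

namespace Pool.Agent.CPT.H42

open MvPolynomial Pool.Agent.Helper78_ACIT Pool.Agent.BSH Pool.Agent.BSH.H44 Pool.Agent.CPT

theorem run_cheap' {E A : Type} [Field E] [CommRing A] [Algebra E A] (B : Set A) (x : ℕ → A)
    (hx : ∀ v, x v = 0 ∨ x v ∈ B) :
    ∀ (C : List Gate) (acc l : List A), Ch E B l → (∀ v ∈ acc, v ∈ sp E B l) →
      ∃ l' : List A, l'.length ≤ l.length + C.countP isMul ∧ Ch E B l' ∧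
        ∀ v ∈ C.foldl (fun vals g => vals ++ [g.value x vals]) acc, v ∈ sp E B l' := by
  intro C
  induction C with
  | nil =>
    intro acc l hl hacc
    exact ⟨l, by simp, hl, hacc⟩
  | cons g C ih =>
    intro acc l hl hacc
    -- a gate which is not a product
    have free : isMul g = false → g.value x acc ∈ sp E B l →
        ∃ l' : List A, l'.length ≤ l.length + (g :: C).countP isMul ∧ Ch E B l' ∧
        ∀ v ∈ (g :: C).foldl (fun vals g => vals ++ [g.value x vals]) acc, v ∈ sp E B l' := by
      intro hg hval
      obtain ⟨l', h1, h2, h3⟩ := ih (acc ++ [g.value x acc]) l hl (by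
        intro v hvv
        rcases List.mem_append.mp hvv with h | h
        · exact hacc v h
        · rw [List.mem_singleton] at h
          rw [h]
          exact hval)
      refine ⟨l', ?_, h2, h3⟩
      rw [List.countP_cons, hg]
      simpa using h1
    cases g with
    | zero => exact free rfl (Submodule.zero_mem _)
    | one => exact free rfl (one_mem_sp B l)
    | var j =>
      refine free rfl ?_
      rcases hx j with h | h
      · change x j ∈ _
        rw [h]
        exact Submodule.zero_mem _
      · exact base_mem_sp l h
    | add a b =>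
      exact free rfl (Submodule.add_mem _ (getD_mem_sp hacc a) (getD_mem_sp hacc b))
    | sub a b =>
      exact free rfl (Submodule.sub_mem _ (getD_mem_sp hacc a) (getD_mem_sp hacc b))
    | mul a b =>
      obtain ⟨l', h1, h2, h3⟩ := ih (acc ++ [acc.getD a 0 * acc.getD b 0])
        ((acc.getD a 0 * acc.getD b 0) :: l)
        ⟨hl, _, getD_mem_sp hacc a, _, getD_mem_sp hacc b, rfl⟩ (by
        intro v hvv
        rcases List.mem_append.mp hvv with h | h
        · exact sp_mono_cons B _ l (hacc v h)
        · rw [List.mem_singleton] at h
          rw [h]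
          exact Submodule.subset_span (Or.inr List.mem_cons_self))
      refine ⟨l', ?_, h2, h3⟩
      rw [List.countP_cons]
      simp only [isMul, if_true]
      simp only [List.length_cons] at h1
      omega

/-- Row CHG. -/
theorem chg : ChgStmt := by
  intro E _ n G _
  obtain ⟨l, h1, h2, h3⟩ := run_cheap' (E := E) (Set.range (X : Fin n → MvPolynomial (Fin n) E))
    (fun i => if h : i < n then X ⟨i, h⟩ else 0) (fun v => by
      by_cases h : v < n
      · exact Or.inr ⟨⟨v, h⟩, by simp only [dif_pos h]⟩
      · exact Or.inl (dif_neg h)) G [] [] trivial (fun v hv => absurd hv List.not_mem_nil)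
  refine ⟨l, ?_, h2, ?_⟩
  · simp only [List.length_nil, zero_add] at h1
    exact h1
  · unfold gp out values
    rw [List.getLastD_eq_getLast?]
    cases hc : (List.foldl (fun vals g => vals ++ [Gate.value
      (fun i => if h : i < n then (X ⟨i, h⟩ : MvPolynomial (Fin n) E) else 0) vals g])
      [] G).getLast? with
    | none => simp
    | some v =>
      simp only [Option.getD_some]
      exact h3 v (List.mem_of_getLast? hc)

end Pool.Agent.CPT.H42
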